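import Mathlib

/-!
# T7 module Grp (MP_460e77_co, helper88): a group of order `p ^ 7`

`H` is a direct sum of `ZMod (n i)`, `n i > 1` (`AddCommGroup.equiv_directSum_zmod_of_finite'`, see `exists_digits` in Pool/Agent/H16/RB/Dig.lean); `n i ∣ p ^ 2`, so `n i = p` or `p ^ 2`.
The image of multiplication by `p` has `p ^ a` elements, `a` = number of `i` with `n i = p ^ 2` (`dig_zmod_range` there), so `a = 3`; `∏ n i = p ^ 7` gives one `i` with `n i = p`.
-/

set_option autoImplicit false

namespace Pool.Agent.H88.T7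

open Finset

private theorem g7_zmod_range {p d : ℕ} (hp : p.Prime) :
    Nat.card (Set.range fun x : ZMod (p ^ (d + 1)) => p • x) = p ^ d := by
  have : NeZero (p ^ (d + 1)) := ⟨pow_ne_zero _ hp.ne_zero⟩
  have h1 : (Set.range fun x : ZMod (p ^ (d + 1)) => p • x)
      = (AddSubgroup.zmultiples ((p : ℕ) : ZMod (p ^ (d + 1))) : Set (ZMod (p ^ (d + 1)))) := by
    ext y
    constructor
    · rintro ⟨x, rfl⟩
      refine ⟨(x.val : ℤ), ?_⟩
      simp only [zsmul_eq_mul, nsmul_eq_mul]
      push_cast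
      rw [ZMod.natCast_zmod_val, mul_comm]
    · rintro ⟨k, rfl⟩
      refine ⟨(k : ZMod (p ^ (d + 1))), ?_⟩
      simp only [zsmul_eq_mul, nsmul_eq_mul]
      rw [mul_comm]
  rw [h1]
  have h2 : Nat.card (AddSubgroup.zmultiples ((p : ℕ) : ZMod (p ^ (d + 1))))
      = addOrderOf ((p : ℕ) : ZMod (p ^ (d + 1))) := Nat.card_zmultiples _
  refine h2.trans ?_
  rw [ZMod.addOrderOf_coe p (pow_ne_zero _ hp.ne_zero)]
  have h3 : (p ^ (d + 1)).gcd p = p := by
    rw [pow_succ', Nat.gcd_comm]
    exact Nat.gcd_eq_left (Dvd.intro _ rfl)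
  rw [h3, pow_succ, Nat.mul_div_cancel _ hp.pos]

/-- The structure of `H`: exponents `δ i + 1 ≤ 2`, three of them `2`, one `1`. -/
private theorem g7_exists {p : ℕ} (hp : p.Prime) {H : Type*} [AddCommGroup H]
    (hH : Nat.card H = p ^ 7) (h2 : ∀ h : H, (p ^ 2) • h = 0)
    (h3 : Nat.card (Set.range fun h : H => p • h) = p ^ 3) :
    ∃ (ι : Type) (_ : Fintype ι) (δ : ι → ℕ),
      Nonempty (H ≃+ (∀ i, ZMod (p ^ (δ i + 1)))) ∧ (∀ i, δ i ≤ 1) ∧ ∑ i, δ i = 3 ∧
        ∑ i, (δ i + 1) = 7 := by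
  classical
  have hfin : Finite H := by
    refine Nat.finite_of_card_ne_zero ?_
    rw [hH]
    exact pow_ne_zero _ hp.ne_zero
  obtain ⟨ι, hι, m, hm, ⟨e⟩⟩ := AddCommGroup.equiv_directSum_zmod_of_finite' H
  let e1 : H ≃+ (∀ i, ZMod (m i)) := e.trans (DirectSum.addEquivProd fun i => ZMod (m i))
  have hne : ∀ i, NeZero (m i) := fun i => ⟨by have := hm i; omega⟩
  have hcard : ∏ i, m i = p ^ 7 := by
    rw [← hH, Nat.card_congr e1.toEquiv, Nat.card_pi]
    refine Finset.prod_congr rfl fun i _ => ?_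
    rw [Nat.card_zmod]
  have hex : ∀ i, ∃ d, m i = p ^ (d + 1) := by
    intro i
    have h1 : m i ∣ p ^ 7 := by
      rw [← hcard]
      exact Finset.dvd_prod_of_mem _ (Finset.mem_univ i)
    obtain ⟨k, -, hk⟩ := (Nat.dvd_prime_pow hp).1 h1
    rcases k with _ | k
    · exfalso
      have := hm i
      rw [hk] at this
      simp at this
    · exact ⟨k, hk⟩
  choose δ hδ using hex
  obtain rfl : m = fun i => p ^ (δ i + 1) := funext hδ
  refine ⟨ι, hι, δ, ⟨e1⟩, ?_, ?_, ?_⟩
  · intro i
    have h4 : (p ^ 2) • (Pi.single i 1 : ∀ i, ZMod (p ^ (δ i + 1))) = 0 := by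
      have h5 := h2 (e1.symm (Pi.single i 1))
      have h6 := congrArg e1 h5
      rwa [map_nsmul, AddEquiv.apply_symm_apply, map_zero] at h6
    have h7 := congrFun h4 i
    rw [Pi.smul_apply, Pi.single_eq_same, Pi.zero_apply, nsmul_eq_mul, mul_one,
      ZMod.natCast_eq_zero_iff] at h7
    have h8 := (Nat.pow_dvd_pow_iff_le_right hp.one_lt).1 h7
    omega
  · have h1 : Nat.card (Set.range fun g : H => p • g) = p ^ (∑ i, δ i) := by
      have h2 : Nat.card (Set.range fun g : H => p • g)
          = Nat.card (Set.range fun v : (∀ i, ZMod (p ^ (δ i + 1))) => p • v) := by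
        refine Nat.card_congr ?_
        refine (Equiv.Set.image e1 _ e1.injective).trans (Equiv.setCongr ?_)
        ext v
        constructor
        · rintro ⟨_, ⟨g, rfl⟩, rfl⟩
          exact ⟨e1 g, (map_nsmul e1 p g).symm⟩
        · rintro ⟨w, rfl⟩
          exact ⟨p • e1.symm w, ⟨e1.symm w, rfl⟩, by rw [map_nsmul, AddEquiv.apply_symm_apply]⟩
      have h3 : (Set.range fun v : (∀ i, ZMod (p ^ (δ i + 1))) => p • v)
          = Set.univ.pi fun i => Set.range fun x : ZMod (p ^ (δ i + 1)) => p • x := by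
        ext v
        constructor
        · rintro ⟨w, rfl⟩ i -
          exact ⟨w i, rfl⟩
        · intro hv
          choose w hw using fun i => hv i (Set.mem_univ i)
          exact ⟨w, funext hw⟩
      rw [h2, h3, Nat.card_congr (Equiv.Set.univPi _), Nat.card_pi, ← Finset.prod_pow_eq_pow_sum]
      exact Finset.prod_congr rfl fun i _ => g7_zmod_range hp
    rw [h3] at h1
    exact (Nat.pow_right_injective hp.two_le h1).symm
  · have h1 : p ^ (∑ i, (δ i + 1)) = p ^ 7 := by
      rw [← hcard, ← Finset.prod_pow_eq_pow_sum]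
    exact Nat.pow_right_injective hp.two_le h1

theorem grp7 {p : ℕ} (hp : p.Prime) {H : Type*} [AddCommGroup H] (hH : Nat.card H = p ^ 7)
    (h2 : ∀ h : H, (p ^ 2) • h = 0) (h3 : Nat.card (Set.range fun h : H => p • h) = p ^ 3) :
    Nonempty (H ≃+ (Fin 3 → ZMod (p ^ 2)) × ZMod p) := by
  classical
  obtain ⟨ι, hι, δ, ⟨e1⟩, hδ, hs, hs1⟩ := g7_exists hp hH h2 h3
  have hS : ((Finset.univ : Finset ι).filter fun i => δ i = 1).card = 3 := by
    rw [Finset.card_filter, ← hs]
    refine Finset.sum_congr rfl fun i _ => ?_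
    have := hδ i
    split_ifs with h <;> omega
  have hι4 : Fintype.card ι = 4 := by
    have h4 : ∑ i, (δ i + 1) = ∑ i, δ i + Fintype.card ι := by
      rw [Finset.sum_add_distrib]
      simp
    omega
  have hT : ((Finset.univ : Finset ι).filter fun i => ¬ δ i = 1).card = 1 := by
    have h5 := Finset.card_filter_add_card_filter_not (s := (Finset.univ : Finset ι))
      (fun i => δ i = 1)
    rw [hS, Finset.card_univ, hι4] at h5
    omega
  obtain ⟨i3, hi3⟩ := Finset.card_eq_one.1 hT
  let σ := Finset.equivFinOfCardEq hS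
  have hσ : ∀ j : Fin 3, δ (σ.symm j : ι) = 1 := fun j =>
    (Finset.mem_filter.1 (σ.symm j).2).2
  have hi30 : δ i3 = 0 := by
    have h6 : i3 ∈ ((Finset.univ : Finset ι).filter fun i => ¬ δ i = 1) := by
      rw [hi3]
      exact Finset.mem_singleton_self _
    have h7 := (Finset.mem_filter.1 h6).2
    have h8 := hδ i3
    omega
  have hc1 : ∀ j : Fin 3, p ^ (δ (σ.symm j : ι) + 1) = p ^ 2 := fun j => by rw [hσ j]
  have hc2 : p ^ (δ i3 + 1) = p := by rw [hi30, zero_add, pow_one]
  let f : H →+ (Fin 3 → ZMod (p ^ 2)) × ZMod p :=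
    { toFun := fun h => (fun j => ZMod.ringEquivCongr (hc1 j) (e1 h (σ.symm j : ι)),
        ZMod.ringEquivCongr hc2 (e1 h i3))
      map_zero' := by
        refine Prod.ext (funext fun j => ?_) ?_
        · simp
        · simp
      map_add' := fun x y => by
        refine Prod.ext (funext fun j => ?_) ?_
        · simp
        · simp }
  have hinj : Function.Injective f := by
    refine (injective_iff_map_eq_zero f).2 fun h hh => ?_
    have h9 : ∀ j : Fin 3, e1 h (σ.symm j : ι) = 0 := by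
      intro j
      have h10 : ZMod.ringEquivCongr (hc1 j) (e1 h (σ.symm j : ι)) = 0 :=
        congrFun (congrArg Prod.fst hh) j
      exact (map_eq_zero_iff _ (ZMod.ringEquivCongr (hc1 j)).injective).1 h10
    have h11 : e1 h i3 = 0 := by
      have h12 : ZMod.ringEquivCongr hc2 (e1 h i3) = 0 := congrArg Prod.snd hh
      exact (map_eq_zero_iff _ (ZMod.ringEquivCongr hc2).injective).1 h12
    have h13 : e1 h = 0 := by
      funext i
      by_cases hi : δ i = 1
      · have hm : i ∈ ((Finset.univ : Finset ι).filter fun i => δ i = 1) :=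
          Finset.mem_filter.2 ⟨Finset.mem_univ _, hi⟩
        have h14 : ∀ i', ((σ.symm (σ ⟨i, hm⟩) : _) : ι) = i' → e1 h i' = 0 := by
          rintro _ rfl
          exact h9 _
        exact h14 i (by rw [Equiv.symm_apply_apply])
      · have hm : i ∈ ((Finset.univ : Finset ι).filter fun i => ¬ δ i = 1) :=
          Finset.mem_filter.2 ⟨Finset.mem_univ _, hi⟩
        rw [hi3] at hm
        obtain rfl := Finset.mem_singleton.1 hm
        exact h11
    exact (map_eq_zero_iff e1 e1.injective).1 h13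
  have hp0 : NeZero (p ^ 2) := ⟨pow_ne_zero _ hp.ne_zero⟩
  have hp1 : NeZero p := ⟨hp.ne_zero⟩
  have hcard : Nat.card ((Fin 3 → ZMod (p ^ 2)) × ZMod p) = p ^ 7 := by
    rw [Nat.card_prod, Nat.card_zmod, Nat.card_pi]
    simp only [Nat.card_zmod, Finset.prod_const, Finset.card_univ, Fintype.card_fin]
    ring
  have hbij : Function.Bijective f :=
    hinj.bijective_of_nat_card_le (by rw [hcard, hH])
  exact ⟨AddEquiv.ofBijective f hbij⟩

end Pool.Agent.H88.T7
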