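import Pool.Agent.H16.RB.Iso
import Pool.Agent.H16.RB.Push

/-!
# T7 module Big (MP_460e77_co, helper88): sets with a simple point are large

Suppose `S.card < p ^ (s + 1)`.  As in `cls_fibre` (Pool/Agent/H16/RB/Cls.lean, private) `iso` gives `τ : Fin (s + 1) → (G →+ ZMod p)` whose fibre over `τ (y x)` is the class of `x`, so it has one point.
`g z = (S.filter fun x => ∀ i, τ i (y x) = z i).card` on `V = Fin (s + 1) → ZMod p`.  As in `push_const` (Pool/Agent/H16/RB/Push.lean), with `deg_of_kills` (`n = s * (p - 1) + 1`, `b = p - 2`, `n + b = (s + 1) * (p - 1)`) all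
`diffs L (fun z => (g z : ZMod p)) = 0` for `L.length = p - 1`.  In particular for `z ≠ 0`, `z0 = τ (y x)`: `∑ t : ZMod p, (g (z0 + t.val • z) : ZMod p) = diffs (List.replicate (p - 1) z) g z0 = 0`
(`∑_{t < p} E ^ t = (E - 1) ^ (p - 1)` in characteristic `p`), so `∑ t, g (z0 + t.val • z)` is divisible by `p` and contains `g z0 = 1`: it is at least `p`.
Sum over all `z ≠ 0`: `(p - 1) ∑_{z ≠ 0} g (z0 + z) = ∑_{z ≠ 0} ∑_{t ≠ 0} g (z0 + t.val • z) ≥ (p ^ (s + 1) - 1) (p - 1)` (for `t ≠ 0` the map `z ↦ t.val • z` permutes the nonzero `z`),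
so `S.card = ∑ g ≥ 1 + (p ^ (s + 1) - 1)`.
-/

set_option autoImplicit false

namespace Pool.Agent.H88.T7

open Finset Pool.Agent.H16.RB

private theorem Big_iter {V F : Type*} [AddCommGroup V] [AddCommGroup F] (k : ℕ) (g : V → F)
    (z x : V) : diffs (List.replicate k z) g x = (fwdDiff z)^[k] g x := by
  induction k generalizing x with
  | zero => rfl
  | succ k ih =>
    rw [List.replicate_succ, Function.iterate_succ_apply']
    show diffs (List.replicate k z) g (x + z) - diffs (List.replicate k z) g x = _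
    rw [ih, ih]
    rfl

private theorem Big_choose {p : ℕ} [Fact p.Prime] (k : ℕ) (hk : k < p) :
    (((p - 1).choose k : ℕ) : ZMod p) = (-1) ^ k := by
  have hp : p.Prime := Fact.out
  induction k with
  | zero => simp
  | succ k ih =>
    have h1 := ih (by omega)
    have h2 : p.choose (k + 1) = (p - 1).choose k + (p - 1).choose (k + 1) := by
      conv_lhs => rw [show p = (p - 1) + 1 from by have := hp.pos; omega]
      rw [Nat.choose_succ_succ]
    have h3 : ((p.choose (k + 1) : ℕ) : ZMod p) = 0 := by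
      rw [ZMod.natCast_eq_zero_iff]
      exact hp.dvd_choose_self (by omega) hk
    rw [h2, Nat.cast_add, h1] at h3
    rw [pow_succ]
    linear_combination h3

/-- for functions with vanishing differences of order `p - 1` the sums over lines vanish -/
theorem line_zero {p : ℕ} [Fact p.Prime] {V : Type*} [AddCommGroup V] (hV : ∀ v : V, p • v = 0)
    (g : V → ZMod p) (z x : V)
    (h : diffs (List.replicate (p - 1) z) g x = 0) : ∑ t ∈ range p, g (x + t • z) = 0 := by
  have hp : p.Prime := Fact.out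
  rw [Big_iter, fwdDiff_iter_eq_sum_shift] at h
  rw [show p - 1 + 1 = p from by have := hp.pos; omega] at h
  rw [← h]
  refine Finset.sum_congr rfl fun k hk => ?_
  have hk' : k < p := Finset.mem_range.1 hk
  have h1 : (((-1 : ℤ) ^ (p - 1 - k) * ((p - 1).choose k : ℤ) : ℤ) : ZMod p) = 1 := by
    push_cast
    rw [Big_choose k hk', ← pow_add, show p - 1 - k + k = p - 1 from by omega]
    exact ZMod.pow_card_sub_one_eq_one (neg_ne_zero.2 one_ne_zero)
  rw [zsmul_eq_mul, h1, one_mul]

private theorem Big_fibre {p s : ℕ} [Fact p.Prime] {X G : Type*}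
    [AddCommGroup G] [Finite G] (y : X → G) (S : Finset X)
    (hS : S.card ≤ p ^ s) (x : X) (hx : x ∈ S) :
    ∃ τ : Fin s → (G →+ ZMod p), (S.filter fun x' => ∀ i, τ i (y x') = τ i (y x)) =
      cls p y S (y x) := by
  classical
  have hT : (S.filter fun x' => ¬ ∀ l : G →+ ZMod p, l (y x') = l (y x)).card < p ^ s := by
    refine lt_of_lt_of_le (Finset.card_lt_card ?_) hS
    refine ⟨Finset.filter_subset _ _, fun h => ?_⟩
    have := (Finset.mem_filter.1 (h hx)).2
    exact this fun l => rfl
  obtain ⟨τ, -, hτ⟩ := iso (p := p) (0 : G) (fun x' => y x' - y x) s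
    (S.filter fun x' => ¬ ∀ l : G →+ ZMod p, l (y x') = l (y x)) hT (by
      intro x' hx'
      have h1 := (Finset.mem_filter.1 hx').2
      push Not at h1
      obtain ⟨l, hl⟩ := h1
      exact ⟨l, map_zero l, by rw [map_sub]; exact sub_ne_zero.2 hl⟩)
  refine ⟨τ, ?_⟩
  ext x'
  simp only [cls, Finset.mem_filter]
  constructor
  · rintro ⟨h1, h2⟩
    refine ⟨h1, ?_⟩
    by_contra h3
    obtain ⟨i, hi⟩ := hτ x' (Finset.mem_filter.2 ⟨h1, h3⟩)
    rw [map_sub, h2 i, sub_self] at hi
    exact hi rfl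
  · rintro ⟨h1, h2⟩
    exact ⟨h1, fun i => h2 (τ i)⟩

private lemma Big_filter_eq {p s : ℕ} {X G : Type*} [AddCommGroup G] (y : X → G) (S : Finset X)
    (τ : Fin s → (G →+ ZMod p)) (z : Fin s → ZMod p) :
    (S.filter fun x => ∀ i, τ i (y x) = z i) = S.filter fun x => (fun i => τ i (y x)) = z := by
  apply Finset.filter_congr
  intro x _
  exact funext_iff.symm

private lemma Big_sum_eq {p s : ℕ} [NeZero p] {X G : Type*} [AddCommGroup G] (y : X → G)
    (S : Finset X) (τ : Fin s → (G →+ ZMod p)) (φ : (Fin s → ZMod p) → ZMod p) :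
    ∑ z, (((S.filter fun x => ∀ i, τ i (y x) = z i).card : ℕ) : ZMod p) * φ z =
      ∑ x ∈ S, φ (fun i => τ i (y x)) := by
  rw [← Finset.sum_fiberwise S (fun x => (fun i => τ i (y x))) (fun x => φ (fun i => τ i (y x)))]
  refine Finset.sum_congr rfl fun z _ => ?_
  rw [Big_filter_eq y S τ z]
  have h : ∑ x ∈ S.filter (fun x => (fun i => τ i (y x)) = z), φ (fun i => τ i (y x)) =
      ∑ _x ∈ S.filter (fun x => (fun i => τ i (y x)) = z), φ z := by
    refine Finset.sum_congr rfl fun x hx => ?_
    rw [(Finset.mem_filter.mp hx).2]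
  rw [h, Finset.sum_const, nsmul_eq_mul]

private lemma Big_card_eq {p s : ℕ} [NeZero p] {X G : Type*} [AddCommGroup G] (y : X → G)
    (S : Finset X) (τ : Fin s → (G →+ ZMod p)) :
    ∑ z : Fin s → ZMod p, (S.filter fun x => ∀ i, τ i (y x) = z i).card = S.card := by
  have h := Finset.card_eq_sum_card_fiberwise (s := S) (t := (Finset.univ : Finset (Fin s → ZMod p)))
    (f := fun x => (fun i => τ i (y x))) (fun x _ => Finset.mem_coe.mpr (Finset.mem_univ _))
  rw [h]
  refine Finset.sum_congr rfl fun z _ => ?_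
  rw [Big_filter_eq y S τ z]

theorem big {p s : ℕ} [Fact p.Prime] {X G : Type*} [AddCommGroup G] [Finite G] (y : X → G)
    (S : Finset X) (hK : Kills p y S (s * (p - 1) + 1)) (x : X) (hx : x ∈ S)
    (h1 : (cls p y S (y x)).card = 1) : p ^ (s + 1) ≤ S.card := by
  have hp : p.Prime := Fact.out
  have hp2 : 2 ≤ p := hp.two_le
  by_contra hlt
  push Not at hlt
  apply absurd hlt
  rw [not_lt]
  obtain ⟨τ, hτ⟩ := Big_fibre (p := p) (s := s + 1) y S hlt.le x hx
  set g : (Fin (s + 1) → ZMod p) → ℕ :=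
    fun z => (S.filter fun x' => ∀ i, τ i (y x') = z i).card with hg
  set z0 : Fin (s + 1) → ZMod p := fun i => τ i (y x) with hz0
  have hg0 : g z0 = 1 := by
    simp only [hg, hz0]
    rw [hτ, h1]
  have hn : (s * (p - 1) + 1) + (p - 2) = (s + 1) * (p - 1) := by
    rw [Nat.add_mul, Nat.one_mul]
    omega
  have hkill : ∀ L : List (((Fin (s + 1) → ZMod p) →+ ZMod p) × ZMod p),
      L.length < s * (p - 1) + 1 →
      ∑ z, ((g z : ℕ) : ZMod p) * (L.map fun l => l.1 z - l.2).prod = 0 := by
    intro L hL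
    rw [Big_sum_eq y S τ (fun z => (L.map fun l => l.1 z - l.2).prod)]
    have h := hK (L.map fun l => (l.1.comp (AddMonoidHom.mk' (fun v : G => (fun i => τ i v))
      (fun a b => by funext i; simp)), l.2)) (by rw [List.length_map]; exact hL)
    rw [← h]
    refine Finset.sum_congr rfl fun x _ => ?_
    rw [List.map_map]
    rfl
  have hline : ∀ z : Fin (s + 1) → ZMod p, p ≤ ∑ t ∈ range p, g (z0 + t • z) := by
    intro z
    have h2 := deg_of_kills hn (fun z => ((g z : ℕ) : ZMod p)) hkill
      (List.replicate (p - 1) z) (by rw [List.length_replicate]; omega) z0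
    have h3 := line_zero (p := p) (V := Fin (s + 1) → ZMod p) (by
      intro v
      funext i
      simp) (fun z => ((g z : ℕ) : ZMod p)) z z0 h2
    rw [← Nat.cast_sum, ZMod.natCast_eq_zero_iff] at h3
    refine Nat.le_of_dvd ?_ h3
    have h4 : g (z0 + 0 • z) ≤ ∑ t ∈ range p, g (z0 + t • z) :=
      Finset.single_le_sum (f := fun t => g (z0 + t • z)) (fun t _ => Nat.zero_le _)
        (Finset.mem_range.2 hp.pos)
    rw [zero_smul, add_zero, hg0] at h4
    omega
  have hcard : ∑ z, g z = S.card := Big_card_eq y S τ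
  have hcardV : Fintype.card (Fin (s + 1) → ZMod p) = p ^ (s + 1) := by
    rw [Fintype.card_fun, ZMod.card, Fintype.card_fin]
  have hperm : ∀ t ∈ (range p).erase 0, ∑ z : Fin (s + 1) → ZMod p, g (z0 + t • z) = S.card := by
    intro t ht
    rw [Finset.mem_erase, Finset.mem_range] at ht
    have ht0 : (t : ZMod p) ≠ 0 := by
      intro h
      rw [ZMod.natCast_eq_zero_iff] at h
      exact absurd (Nat.le_of_dvd (Nat.pos_of_ne_zero ht.1) h) (not_le.2 ht.2)
    have hinj : Function.Injective (fun z : Fin (s + 1) → ZMod p => z0 + t • z) := by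
      intro z w hzw
      have h2 : t • z = t • w := add_left_cancel hzw
      funext i
      have h3 := congrFun h2 i
      simp only [Pi.smul_apply, nsmul_eq_mul] at h3
      exact mul_left_cancel₀ ht0 h3
    rw [← hcard]
    exact Function.Bijective.sum_comp (Finite.injective_iff_bijective.1 hinj) g
  have htot : ∑ z : Fin (s + 1) → ZMod p, ∑ t ∈ range p, g (z0 + t • z) =
      p ^ (s + 1) + (p - 1) * S.card := by
    rw [Finset.sum_comm, ← Finset.add_sum_erase _ _ (Finset.mem_range.2 hp.pos)]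
    rw [Finset.sum_congr rfl hperm, Finset.sum_const, Finset.card_erase_of_mem
      (Finset.mem_range.2 hp.pos), Finset.card_range, smul_eq_mul]
    congr 1
    simp only [zero_smul, add_zero, hg0]
    rw [Finset.sum_const, Finset.card_univ, hcardV, smul_eq_mul, mul_one]
  have hlow : p ^ (s + 1) * p ≤ ∑ z : Fin (s + 1) → ZMod p, ∑ t ∈ range p, g (z0 + t • z) := by
    have h2 := Finset.card_nsmul_le_sum (univ : Finset (Fin (s + 1) → ZMod p))
      (fun z => ∑ t ∈ range p, g (z0 + t • z)) p (fun z _ => hline z)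
    rwa [smul_eq_mul, Finset.card_univ, hcardV] at h2
  rw [htot] at hlow
  have h5 : p ^ (s + 1) * (p - 1) ≤ S.card * (p - 1) := by
    obtain ⟨r, hr⟩ : ∃ r, p = r + 1 := ⟨p - 1, by omega⟩
    have h6 : p - 1 = r := by omega
    rw [h6] at hlow ⊢
    have h7 : p ^ (s + 1) * p = p ^ (s + 1) + p ^ (s + 1) * r := by
      conv_lhs => rw [show p ^ (s + 1) * p = p ^ (s + 1) * (r + 1) from by rw [← hr]]
      ring
    rw [h7] at hlow
    nlinarith
  exact Nat.le_of_mul_le_mul_right h5 (by omega)

end Pool.Agent.H88.T7
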