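import Pool.Agent.H16.RB.T2b

/-!
# T7 module Cnt (MP_460e77_co, helper88): counts for general `r`, `κ`

Copy of the proofs of `D2.card_coll`, `D2.sum_sq` (Pool/Agent/H16/RB/T2a.lean), `coll_of_cls`, `coll_ge`, `sum_sl` (Pool/Agent/H16/RB/T2b.lean) without the structure `D2`.
`sum_sq'`: the pairs `(x, x')` with `p • gr f x = p • gr f x'` are the `p ^ r` diagonal ones and (`pair_count`) one for each `g` with `p • g = 0`, `g.1 ≠ 0`; the number of `g` with `p • g = 0` is
`p ^ (2 r) / p ^ κ` (`fib_card`, private in T2a, for the group `H × K`), those with `g.1 = 0` correspond to `k` with `p • k = 0`.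
-/

set_option autoImplicit false

namespace Pool.Agent.H88.T7

open Finset Pool.Agent.H16.RB Pool.Agent.H88.Pl
open scoped Classical

variable {p r κ : ℕ} {H K : Type*} [AddCommGroup H] [AddCommGroup K] [Fintype H] [Fintype K]
  {f : H → K}

/-- the fibres of multiplication by `p` all have the same size -/
private theorem fib_card {A : Type*} [AddCommGroup A] [Fintype A] [DecidableEq A] (p : ℕ) (a : A) :
    (univ.image fun x : A => p • x).card * (univ.filter fun x : A => p • x = p • a).card =
      Fintype.card A := by
  have h := card_eq_sum_card_image (fun x : A => p • x) (univ : Finset A)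
  rw [card_univ] at h
  rw [h, ← smul_eq_mul, ← sum_const]
  refine sum_congr rfl fun b hb => ?_
  obtain ⟨c, -, rfl⟩ := mem_image.1 hb
  refine card_bij (fun x _ => x - a + c) ?_ ?_ ?_
  · intro x hx
    rw [mem_filter] at hx ⊢
    refine ⟨mem_univ _, ?_⟩
    rw [smul_add, smul_sub, hx.2, sub_self, zero_add]
  · intro x _ y _ hxy
    simpa using hxy
  · intro y hy
    rw [mem_filter] at hy
    refine ⟨y - c + a, ?_, by abel⟩
    rw [mem_filter]
    refine ⟨mem_univ _, ?_⟩
    rw [smul_add, smul_sub, hy.2, sub_self, zero_add]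

private theorem PG_eq (p : ℕ) (H K : Type*) [AddCommGroup H] [AddCommGroup K] [Fintype H]
    [Fintype K] :
    PG p H K = (univ.image fun h : H => p • h) ×ˢ (univ.image fun k : K => p • k) := by
  ext g
  constructor
  · intro hg
    obtain ⟨x, -, rfl⟩ := mem_image.1 hg
    exact mem_product.2 ⟨mem_image.2 ⟨x.1, mem_univ _, rfl⟩, mem_image.2 ⟨x.2, mem_univ _, rfl⟩⟩
  · intro hg
    obtain ⟨h1, h2⟩ := mem_product.1 hg
    obtain ⟨x, -, hx⟩ := mem_image.1 h1
    obtain ⟨y, -, hy⟩ := mem_image.1 h2
    exact mem_image.2 ⟨(x, y), mem_univ _, Prod.ext hx hy⟩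

theorem card_PG' (hκ : Nat.card (Set.range fun g : H × K => p • g) = p ^ κ) :
    (PG p H K).card = p ^ κ := by
  rw [← hκ, Nat.card_coe_set_eq, ← Set.ncard_coe_finset]
  congr 1
  ext g
  simp [PG]

theorem sum_sl' (hH : Fintype.card H = p ^ r) : ∑ v ∈ PG p H K, (sl p f v).card = p ^ r := by
  rw [← hH, ← Finset.card_univ, Finset.card_eq_sum_card_fiberwise (f := fun x => p • gr f x)
    (t := PG p H K) (s := univ)]
  · rfl
  · intro x _
    simp only [PG, coe_image, coe_univ, Set.image_univ, Set.mem_range]
    exact ⟨gr f x, rfl⟩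

theorem card_coll' (hf : IsPlanar f)
    (hκ : Nat.card (Set.range fun g : H × K => p • g) = p ^ κ) :
    (coll p f).card + (univ.image fun k : K => p • k).card = p ^ κ := by
  have h1 : (coll p f).card =
      (univ.filter fun g : H × K => g.1 ≠ 0 ∧ ∃ g' : H × K, p • g' = g).card := by
    have := pair_count f hf fun g => ∃ g' : H × K, p • g' = g
    refine Eq.trans ?_ (this.trans ?_)
    · congr 1
    · congr 1
      ext z
      simp only [mem_filter]
  have h2 : (univ.filter fun g : H × K => g.1 ≠ 0 ∧ ∃ g' : H × K, p • g' = g) =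
      (PG p H K).filter fun g => ¬ g.1 = 0 := by
    ext g
    simp [PG, and_comm]
  have h3 : ((PG p H K).filter fun g => g.1 = 0).card = (univ.image fun k : K => p • k).card := by
    refine card_bij (fun g _ => g.2) ?_ ?_ ?_
    · intro g hg
      have := (mem_filter.1 hg).1
      rw [PG_eq] at this
      exact (mem_product.1 this).2
    · intro g hg g' hg' h
      have e1 := (mem_filter.1 hg).2
      have e2 := (mem_filter.1 hg').2
      exact Prod.ext (e1.trans e2.symm) h
    · intro k hk
      refine ⟨(0, k), ?_, rfl⟩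
      rw [mem_filter, PG_eq]
      refine ⟨mem_product.2 ⟨mem_image.2 ⟨0, mem_univ _, smul_zero _⟩, hk⟩, rfl⟩
  have h4 := card_filter_add_card_filter_not (s := PG p H K) (fun g : H × K => g.1 = 0)
  rw [h1, h2, ← h3, ← card_PG' (H := H) (K := K) hκ, add_comm]
  exact h4

theorem sum_sq' (hp : 0 < p) (hH : Fintype.card H = p ^ r) (hK : Fintype.card K = p ^ r)
    (hf : IsPlanar f) (hκ : Nat.card (Set.range fun g : H × K => p • g) = p ^ κ) (hκr : κ ≤ 2 * r) :
    ∑ v ∈ PG p H K, (sl p f v).card ^ 2 + (univ.filter fun k : K => p • k = 0).card =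
      p ^ r + p ^ (2 * r - κ) := by
  have h1 : ∑ v ∈ PG p H K, (sl p f v).card ^ 2 =
      (univ.filter fun z : H × H => p • gr f z.1 = p • gr f z.2).card := by
    have h0 := Pool.Agent.H16.RB.sum_sq (fun x : H => p • gr f x)
    have h0' : (univ.filter fun z : H × H => p • gr f z.1 = p • gr f z.2).card =
        ∑ v : H × K, (univ.filter fun x => p • gr f x = v).card ^ 2 := by
      refine Eq.trans ?_ (h0.symm.trans ?_)
      · congr 1
        ext z
        simp only [mem_filter]
      · refine sum_congr rfl fun v _ => ?_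
        congr 2
        ext z
        simp only [mem_filter]
    rw [h0']
    refine sum_subset (subset_univ _) fun v _ hv => ?_
    have : sl p f v = ∅ := by
      refine filter_eq_empty_iff.2 fun x _ hx => hv ?_
      exact mem_image.2 ⟨gr f x, mem_univ _, hx⟩
    change (sl p f v).card ^ 2 = 0
    rw [this]
    rfl
  have h2 := card_filter_add_card_filter_not
    (s := univ.filter fun z : H × H => p • gr f z.1 = p • gr f z.2) (fun z : H × H => z.1 = z.2)
  have h3 : ((univ.filter fun z : H × H => p • gr f z.1 = p • gr f z.2).filter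
      fun z : H × H => z.1 = z.2).card = p ^ r := by
    rw [← hH, ← card_univ]
    symm
    refine card_bij (fun x _ => (x, x)) ?_ ?_ ?_
    · intro x _
      simp
    · intro x _ y _ h
      exact (Prod.ext_iff.1 h).1
    · intro z hz
      have := (mem_filter.1 hz).2
      exact ⟨z.1, mem_univ _, Prod.ext rfl this⟩
  have h4 : ((univ.filter fun z : H × H => p • gr f z.1 = p • gr f z.2).filter
      fun z : H × H => ¬ z.1 = z.2).card =
      (univ.filter fun g : H × K => g.1 ≠ 0 ∧ p • g = 0).card := by
    have h0 := pair_count f hf fun g => p • g = 0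
    have h0' : (univ.filter fun g : H × K => g.1 ≠ 0 ∧ p • g = 0).card =
        (univ.filter fun z : H × H => z.1 ≠ z.2 ∧ p • (gr f z.1 - gr f z.2) = 0).card := by
      refine Eq.trans ?_ (h0.symm.trans ?_)
      · congr 1
        ext z
        simp only [mem_filter]
      · congr 1
        ext z
        simp only [mem_filter]
    rw [h0']
    congr 1
    ext z
    simp only [mem_filter, mem_univ, true_and, ne_eq, smul_sub, sub_eq_zero]
    exact and_comm
  have h5 := card_filter_add_card_filter_not
    (s := univ.filter fun g : H × K => p • g = 0) (fun g : H × K => g.1 = 0)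
  have h6 : ((univ.filter fun g : H × K => p • g = 0).filter fun g : H × K => ¬ g.1 = 0).card =
      (univ.filter fun g : H × K => g.1 ≠ 0 ∧ p • g = 0).card := by
    congr 1
    ext g
    simp only [mem_filter, mem_univ, true_and, ne_eq]
    exact and_comm
  have h7 : (univ.filter fun g : H × K => p • g = 0).card = p ^ (2 * r - κ) := by
    have h := fib_card (A := H × K) p 0
    have e : (univ.image fun x : H × K => p • x).card = p ^ κ := by
      rw [← hκ, Nat.card_coe_set_eq, ← Set.ncard_coe_finset]
      congr 1
      ext g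
      simp
    rw [e, Fintype.card_prod, hH, hK, smul_zero] at h
    refine Nat.eq_of_mul_eq_mul_left (pow_pos hp κ) ?_
    rw [← pow_add, show κ + (2 * r - κ) = r + r by omega, pow_add, ← h]
  have h8 : ((univ.filter fun g : H × K => p • g = 0).filter fun g : H × K => g.1 = 0).card =
      (univ.filter fun k : K => p • k = 0).card := by
    refine card_bij (fun g _ => g.2) ?_ ?_ ?_
    · intro g hg
      have := (mem_filter.1 (mem_filter.1 hg).1).2
      rw [mem_filter]
      exact ⟨mem_univ _, (Prod.ext_iff.1 this).2⟩
    · intro g hg g' hg' h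
      have e1 := (mem_filter.1 hg).2
      have e2 := (mem_filter.1 hg').2
      exact Prod.ext (e1.trans e2.symm) h
    · intro k hk
      have := (mem_filter.1 hk).2
      refine ⟨(0, k), ?_, rfl⟩
      rw [mem_filter, mem_filter]
      exact ⟨⟨mem_univ _, Prod.ext (smul_zero p) this⟩, rfl⟩
  omega

/-- if no point of a slice is alone in its class there are many collisions -/
theorem coll_two [Fact p.Prime] (v : H × K)
    (h : ∀ x ∈ sl p f v, (cls p (gr f) (sl p f v) (gr f x)).card ≠ 1) :
    (sl p f v).card ≤ (coll p f).card := by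
  have h1 : ∀ x ∈ sl p f v, ∃ x' ∈ cls p (gr f) (sl p f v) (gr f x), x' ≠ x := by
    intro x hx
    have hm := T2b.self_mem_cls hx
    have h2 : 1 < (cls p (gr f) (sl p f v) (gr f x)).card := by
      have := Finset.card_pos.2 ⟨x, hm⟩
      have := h x hx
      omega
    exact exists_mem_ne h2 x
  choose! y hy hne using h1
  refine card_le_card_of_injOn (fun x => (x, y x)) ?_ ?_
  · intro x hx
    exact mem_coe.2 (T2b.coll_of_cls (hy x (mem_coe.1 hx)) (hne x (mem_coe.1 hx)).symm)
  · intro a _ b _ hab
    exact (Prod.mk.inj hab).1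

end Pool.Agent.H88.T7
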