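import Pool.Agent.H88.T7.Odd
import Pool.Agent.H88.T7.Grp
import Pool.Agent.H38.PL3.Main3

/-!
# T7 Main (MP_460e77_co, helper88): planar functions between groups of order `p ^ 7`
-/

set_option autoImplicit false

namespace Pool.Agent.H88.T7

open Finset Pool.Agent.H16.RB Pool.Agent.H88.Pl Pool.Agent.H38.RX
open scoped Classical

variable {H K : Type*} [AddCommGroup H] [AddCommGroup K]

theorem seven {p : ℕ} [Fact p.Prime] (h7 : 7 ≤ p) (hH : Nat.card H = p ^ 7)
    (hK : Nat.card K = p ^ 7) (f : H → K) (hf : IsPlanar f) :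
    Nonempty (K ≃+ (Fin 7 → ZMod p)) ∧
      (Nonempty (H ≃+ (Fin 7 → ZMod p)) ∨ Nonempty (H ≃+ (Fin 3 → ZMod (p ^ 2)) × ZMod p)) := by
  have hpp : p.Prime := Fact.out
  have : Finite H := Nat.finite_of_card_ne_zero (by rw [hH]; exact (pow_pos hpp.pos _).ne')
  have : Finite K := Nat.finite_of_card_ne_zero (by rw [hK]; exact (pow_pos hpp.pos _).ne')
  have := Fintype.ofFinite H
  have := Fintype.ofFinite K
  by_cases hall : ∀ g : H × K, p • g = 0
  · exact ⟨equiv_of_smul hK fun y => (Prod.ext_iff.1 (hall (0, y))).2,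
      Or.inl (equiv_of_smul hH fun x => (Prod.ext_iff.1 (hall (x, 0))).1)⟩
  have hG : Nat.card (H × K) = p ^ (2 * 7) := by
    rw [Nat.card_prod, hH, hK, ← pow_add]
  obtain ⟨e, -, he⟩ := (Nat.dvd_prime_pow hpp).1
    (show AddMonoid.exponent (H × K) ∣ p ^ (2 * 7) by
      rw [← hG]; exact AddGroup.exponent_dvd_nat_card)
  have he2 : 2 ≤ e := by
    by_contra hlt
    apply hall
    intro g
    have h1 : AddMonoid.exponent (H × K) ∣ p := by
      rw [he]
      calc p ^ e ∣ p ^ 1 := pow_dvd_pow p (by omega)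
        _ = p := pow_one p
    obtain ⟨c, hc⟩ := h1
    rw [hc, mul_comm, mul_smul, AddMonoid.exponent_nsmul_eq_zero, smul_zero]
  obtain ⟨κ, hκ⟩ := card_range_pow hG
  have hB := Pool.Agent.H38.PL3.main_C (show 3 ≤ 7 by omega) he2 hH hK f hf he
  have hsub : (Set.range fun g : H × K => p ^ (e - 1) • g) ⊆ Set.range fun g : H × K => p • g := by
    rintro _ ⟨x, rfl⟩
    refine ⟨p ^ (e - 2) • x, ?_⟩
    show p • (p ^ (e - 2) • x) = p ^ (e - 1) • x
    rw [smul_smul, ← pow_succ']
    congr 2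
    omega
  have hle := Nat.card_mono (Set.toFinite _) hsub
  have hκ3 : 3 ≤ κ := by
    rw [hκ] at hle
    exact (Nat.pow_le_pow_iff_right hpp.one_lt).1 (hB.trans hle)
  have hκ3' : κ ≤ 3 := odd_le (s := 3) (by omega) (by omega) hH hK f hf hκ
  obtain rfl : κ = 3 := by omega
  have heq : (Set.range fun g : H × K => p ^ (e - 1) • g) = Set.range fun g : H × K => p • g := by
    refine Set.eq_of_subset_of_ncard_le hsub ?_ (Set.toFinite _)
    rw [← Nat.card_coe_set_eq, ← Nat.card_coe_set_eq, hκ]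
    exact hB
  have h2 : ∀ g : H × K, p ^ 2 • g = 0 := by
    intro g
    obtain ⟨x, hx⟩ : p • g ∈ Set.range fun g : H × K => p ^ (e - 1) • g := by
      rw [heq]; exact ⟨g, rfl⟩
    have hx' : p ^ (e - 1) • x = p • g := hx
    rw [sq, mul_smul, ← hx', smul_smul, ← pow_succ', show e - 1 + 1 = e by omega, ← he,
      AddMonoid.exponent_nsmul_eq_zero]
  have hKp : ∀ k : K, p • k = 0 := odd_eq (s := 3) (by norm_num) (by omega) hH hK f hf hκ
  refine ⟨equiv_of_smul hK hKp, Or.inr (grp7 hpp hH (fun h => ?_) ?_)⟩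
  · exact (Prod.ext_iff.1 (h2 (h, 0))).1
  · have h3 := card_range_prod (p := p) (H := H) (K := K)
    have h4 : (Set.range fun k : K => p • k) = {0} := by
      ext k
      simp only [Set.mem_range, Set.mem_singleton_iff]
      constructor
      · rintro ⟨y, rfl⟩
        exact hKp y
      · rintro rfl
        exact ⟨0, hKp 0⟩
    have h5 : Nat.card (Set.range fun k : K => p • k) = 1 := by
      rw [h4]
      simp
    rw [hκ, h5, mul_one] at h3
    exact h3.symm

end Pool.Agent.H88.T7
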