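import Pool.Agent.H88.T7.Big
import Pool.Agent.H88.T7.Cnt
import Pool.Agent.H38.RX.Main

/-!
# T7 module Odd (MP_460e77_co, helper88): the equality case of the rank bound for odd `r`

`r = 2 s + 1`, `p ≥ r`, `|p G| = p ^ s`.  The slices `S_v`, `v ∈ p G`, kill products of at most `s (p - 1)` functionals (`sl_kills`).  `∑ (|S_v| - p ^ (s + 1)) ^ 2 = p ^ (2 s + 1) - |K[p]|`.
If `|S_v| < p ^ (s + 1)` then (`big`) no point of `S_v` is alone in its class, so (`coll_two`) `|S_v| ≤ |coll| < p ^ s` and `(p ^ (s + 1) - |S_v|) ^ 2 > p ^ (2 s) (p - 1) ^ 2 ≥ p ^ (2 s + 1)`, a contradiction.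
So all `|S_v| ≥ p ^ (s + 1)`, the sum is `p ^ (2 s + 1)`, all are equal, and `|K[p]| = |K|`.
-/

set_option autoImplicit false

namespace Pool.Agent.H88.T7

open Finset Pool.Agent.H16.RB Pool.Agent.H88.Pl
open scoped Classical

theorem odd_eq0 {p s : ℕ} [Fact p.Prime] (hs : 1 ≤ s) (hps : 2 * s + 1 ≤ p) {H K : Type*}
    [AddCommGroup H] [AddCommGroup K] [Fintype H] [Fintype K]
    (hH : Fintype.card H = p ^ (2 * s + 1)) (hK : Fintype.card K = p ^ (2 * s + 1)) (f : H → K)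
    (hf : IsPlanar f) (hκ : Nat.card (Set.range fun g : H × K => p • g) = p ^ s) (k : K) :
    p • k = 0 := by
  have hpp : p.Prime := Fact.out
  have hp3 : 3 ≤ p := by omega
  have hp0 : 0 < p := by omega
  have hkills : ∀ v ∈ PG p H K, Kills p (gr f) (sl p f v) (s * (p - 1) + 1) := by
    intro v hv
    obtain ⟨w, -, rfl⟩ := mem_image.1 hv
    refine sl_kills (r := 2 * s + 1) (κ := s) (by omega) hH hK f hf hs hκ ?_ w
    have h1 : (2 * s + 1) * (p - 1) = 2 * (s * (p - 1)) + (p - 1) := by ring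
    omega
  have hsum := sum_sl' (K := K) (f := f) hH
  have hsq := sum_sq' hp0 hH hK hf hκ (by omega)
  have hco := card_coll' (p := p) hf hκ
  have hPG := card_PG' (p := p) hκ
  have hcol : (coll p f).card < p ^ s := by
    have h1 : 0 < (univ.image fun k : K => p • k).card :=
      card_pos.2 ⟨p • (0 : K), mem_image.2 ⟨0, mem_univ _, rfl⟩⟩
    omega
  have hKp : (univ.filter fun k : K => p • k = 0).card ≤ p ^ (2 * s + 1) := by
    rw [← hK]
    exact card_filter_le _ _ |>.trans (by rw [card_univ])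
  have hvar : ∑ w ∈ PG p H K, (((sl p f w).card : ℤ) - (p : ℤ) ^ (s + 1)) ^ 2 =
      (p : ℤ) ^ (2 * s + 1) - ((univ.filter fun k : K => p • k = 0).card : ℤ) := by
    have h1 : (∑ w ∈ PG p H K, ((sl p f w).card : ℤ)) = (p : ℤ) ^ (2 * s + 1) := by
      exact_mod_cast hsum
    have h2 : (∑ w ∈ PG p H K, ((sl p f w).card : ℤ) ^ 2) +
        ((univ.filter fun k : K => p • k = 0).card : ℤ) =
        (p : ℤ) ^ (2 * s + 1) + (p : ℤ) ^ (2 * (2 * s + 1) - s) := by
      exact_mod_cast hsq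
    have h3 : ((PG p H K).card : ℤ) = (p : ℤ) ^ s := by
      exact_mod_cast hPG
    have h4 : ∑ w ∈ PG p H K, (((sl p f w).card : ℤ) - (p : ℤ) ^ (s + 1)) ^ 2 =
        (∑ w ∈ PG p H K, ((sl p f w).card : ℤ) ^ 2) -
          2 * (p : ℤ) ^ (s + 1) * (∑ w ∈ PG p H K, ((sl p f w).card : ℤ)) +
          ((PG p H K).card : ℤ) * ((p : ℤ) ^ (s + 1)) ^ 2 := by
      rw [Finset.mul_sum, ← Finset.sum_sub_distrib, ← nsmul_eq_mul, ← Finset.sum_const,
        ← Finset.sum_add_distrib]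
      apply Finset.sum_congr rfl
      intro v _
      ring
    rw [h4, h1, h3]
    have h5 : 2 * (2 * s + 1) - s = 3 * s + 2 := by omega
    rw [h5] at h2
    have h6 : (p : ℤ) ^ (3 * s + 2) = (p : ℤ) ^ s * ((p : ℤ) ^ (s + 1)) ^ 2 := by ring
    have h7 : (p : ℤ) ^ (s + 1) * (p : ℤ) ^ (2 * s + 1) = (p : ℤ) ^ (3 * s + 2) := by ring
    have h8 : 2 * (p : ℤ) ^ (s + 1) * (p : ℤ) ^ (2 * s + 1) = 2 * (p : ℤ) ^ (3 * s + 2) := by
      rw [mul_assoc, h7]
    rw [h8, ← h6]
    linear_combination h2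
  -- no small slices
  have hbig : ∀ v ∈ PG p H K, p ^ (s + 1) ≤ (sl p f v).card := by
    intro v hv
    by_contra hlt
    push Not at hlt
    have h1 : (sl p f v).card ≤ (coll p f).card := by
      refine coll_two v fun x hx hone => ?_
      have := big (gr f) (sl p f v) (hkills v hv) x hx hone
      omega
    have h2 : (sl p f v).card < p ^ s := h1.trans_lt hcol
    -- the contribution of this slice is too large
    have h3 : ((p : ℤ) ^ (2 * s + 1)) < (((sl p f v).card : ℤ) - (p : ℤ) ^ (s + 1)) ^ 2 := by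
      have e1 : ((sl p f v).card : ℤ) < (p : ℤ) ^ s := by exact_mod_cast h2
      have e2 : (0 : ℤ) < (p : ℤ) ^ s := by positivity
      have e3 : (3 : ℤ) ≤ p := by exact_mod_cast hp3
      have e4 : (p : ℤ) ^ s * (p - 1) < (p : ℤ) ^ (s + 1) - ((sl p f v).card : ℤ) := by
        rw [pow_succ]
        linarith
      have e5 : (p : ℤ) ^ (2 * s + 1) ≤ ((p : ℤ) ^ s * (p - 1)) ^ 2 := by
        have e6 : ((p : ℤ) ^ s * (p - 1)) ^ 2 = (p : ℤ) ^ (2 * s) * (p - 1) ^ 2 := by
          rw [mul_pow, ← pow_mul, mul_comm s 2]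
        rw [e6, pow_succ]
        refine mul_le_mul_of_nonneg_left ?_ (by positivity)
        nlinarith
      have e7 : (0 : ℤ) ≤ (p : ℤ) ^ s * (p - 1) := mul_nonneg e2.le (by linarith)
      have e8 : ((p : ℤ) ^ s * (p - 1)) ^ 2 <
          ((p : ℤ) ^ (s + 1) - ((sl p f v).card : ℤ)) ^ 2 := by
        exact pow_lt_pow_left₀ e4 e7 (by norm_num)
      have e9 : (((sl p f v).card : ℤ) - (p : ℤ) ^ (s + 1)) ^ 2 =
          ((p : ℤ) ^ (s + 1) - ((sl p f v).card : ℤ)) ^ 2 := by ring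
      rw [e9]
      exact e5.trans_lt e8
    have h4 : (((sl p f v).card : ℤ) - (p : ℤ) ^ (s + 1)) ^ 2 ≤
        ∑ w ∈ PG p H K, (((sl p f w).card : ℤ) - (p : ℤ) ^ (s + 1)) ^ 2 :=
      single_le_sum (f := fun w => (((sl p f w).card : ℤ) - (p : ℤ) ^ (s + 1)) ^ 2)
        (fun w _ => sq_nonneg _) hv
    rw [hvar] at h4
    have h5 : (0 : ℤ) ≤ ((univ.filter fun k : K => p • k = 0).card : ℤ) := by positivity
    linarith
  have heq : ∀ v ∈ PG p H K, (sl p f v).card = p ^ (s + 1) := by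
    have h1 : ∑ _v ∈ PG p H K, p ^ (s + 1) = ∑ v ∈ PG p H K, (sl p f v).card := by
      rw [hsum, sum_const, hPG, smul_eq_mul, ← pow_add]
      congr 1
      ring
    intro v hv
    exact ((sum_eq_sum_iff_of_le hbig).1 h1 v hv).symm
  have h0 : ∑ w ∈ PG p H K, (((sl p f w).card : ℤ) - (p : ℤ) ^ (s + 1)) ^ 2 = 0 := by
    refine sum_eq_zero fun w hw => ?_
    rw [heq w hw]
    push_cast
    ring
  rw [hvar, sub_eq_zero] at h0
  have h1 : (univ.filter fun k : K => p • k = 0).card = Fintype.card K := by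
    rw [hK]
    exact_mod_cast h0.symm
  have h2 : (univ.filter fun k : K => p • k = 0) = univ := by
    apply eq_univ_of_card
    exact h1
  have h3 : k ∈ univ.filter fun k : K => p • k = 0 := by
    rw [h2]
    exact mem_univ _
  exact (mem_filter.1 h3).2

theorem odd_eq {p s : ℕ} [Fact p.Prime] (hs : 1 ≤ s) (hps : 2 * s + 1 ≤ p) {H K : Type*}
    [AddCommGroup H] [AddCommGroup K] (hH : Nat.card H = p ^ (2 * s + 1))
    (hK : Nat.card K = p ^ (2 * s + 1)) (f : H → K) (hf : IsPlanar f)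
    (hκ : Nat.card (Set.range fun g : H × K => p • g) = p ^ s) (k : K) : p • k = 0 := by
  have hpp : p.Prime := Fact.out
  have : Finite H := Nat.finite_of_card_ne_zero (by rw [hH]; exact (pow_pos hpp.pos _).ne')
  have : Finite K := Nat.finite_of_card_ne_zero (by rw [hK]; exact (pow_pos hpp.pos _).ne')
  have := Fintype.ofFinite H
  have := Fintype.ofFinite K
  exact odd_eq0 hs hps (by rw [← Nat.card_eq_fintype_card, hH])
    (by rw [← Nat.card_eq_fintype_card, hK]) f hf hκ k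

/-- `|p G| ≤ p ^ s` -/
theorem odd_le {p s κ : ℕ} [Fact p.Prime] (hps : 2 * s + 1 ≤ p) (hp2 : p ≠ 2) {H K : Type*}
    [AddCommGroup H] [AddCommGroup K] (hH : Nat.card H = p ^ (2 * s + 1))
    (hK : Nat.card K = p ^ (2 * s + 1)) (f : H → K) (hf : IsPlanar f)
    (hκ : Nat.card (Set.range fun g : H × K => p • g) = p ^ κ) : κ ≤ s := by
  have h := Pool.Agent.H38.RX.rank_C hp2 hH hK f hf (by omega) hκ
  by_contra hlt
  obtain ⟨q, rfl⟩ : ∃ q, p = q + 1 := ⟨p - 1, by omega⟩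
  rw [Nat.add_sub_cancel] at h
  have h1 : 2 * q * (s + 1) ≤ 2 * q * κ := Nat.mul_le_mul_left _ (by omega)
  nlinarith

end Pool.Agent.H88.T7
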